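import Mathlib

/-!
# Clique number of xor-powers of Kneser graphs

We disprove the conjecture that `f_ℓ(n,k) = Θ(n ^ ⌊log₂ (ℓ+1)⌋)` for all large fixed `k`:
for `ℓ = 5` and every fixed `k ≥ 4` the clique number is `Θ(n ^ 3)`, while
`⌊log₂ 6⌋ = 2`.
-/

namespace Pool.Agent.Results.MP_e3e024_co.FifthXorPower

open Filter Asymptotics

/-- The Kneser graph `KG(n,k)`: vertices are the `k`-element subsets of an `n`-element set, and
two (distinct) vertices are adjacent iff they are disjoint. -/
def kneser (n k : ℕ) : SimpleGraph {s : Finset (Fin n) // s.card = k} where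
  Adj X Y := X ≠ Y ∧ Disjoint X.1 Y.1
  symm := ⟨fun _ _ h => ⟨h.1.symm, h.2.symm⟩⟩
  loopless := ⟨fun _ h => h.1 rfl⟩

/-- The `ℓ`-th xor-power of a graph `G`: vertices are `ℓ`-tuples of vertices of `G`, and two tuples
are adjacent iff they are adjacent in `G` in an odd number of coordinates. -/
def xorPower {V : Type*} (G : SimpleGraph V) (ℓ : ℕ) : SimpleGraph (Fin ℓ → V) where
  Adj x y := Odd {i : Fin ℓ | G.Adj (x i) (y i)}.ncard
  symm := ⟨fun x y h => by
    have : {i : Fin ℓ | G.Adj (y i) (x i)} = {i : Fin ℓ | G.Adj (x i) (y i)} := by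
      ext i; exact ⟨fun h => h.symm, fun h => h.symm⟩
    rw [this]; exact h⟩
  loopless := ⟨fun x h => by simp at h⟩

/-- `f ℓ n k` is the clique number of the `ℓ`-th xor-power of `KG(n,k)`. -/
noncomputable def f (ℓ n k : ℕ) : ℕ := (xorPower (kneser n k) ℓ).cliqueNum

/-! ### The construction -/

section construction

variable {A : Type*} [CommRing A]

/-- The linear forms used in the five coordinates. -/
def form (i : Fin 5) (j : ℕ) (a : A × A × A) : A :=
  match i with
  | 0 => a.1
  | 1 => a.2.1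
  | 2 => if j = 0 then a.2.1 else if j = 1 then a.1 + a.2.2 else a.2.1 + a.2.2
  | 3 => if j = 0 then a.1 else if j = 1 then a.2.2 else a.1 + a.2.1 + a.2.2
  | 4 => if j = 0 then a.2.2 else if j = 1 then a.1 + a.2.2 else
          if j = 2 then a.2.1 + a.2.2 else a.1 + a.2.1 + a.2.2

lemma form_sub (i : Fin 5) (j : ℕ) (a b : A × A × A) :
    form i j (a - b) = form i j a - form i j b := by
  fin_cases i <;> simp only [form, Prod.fst_sub, Prod.snd_sub] <;> (try split_ifs) <;> ring

/-- Boolean core of the construction: the letters stand for the vanishing of the seven linear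
forms `a, b, c, a+c, b+c, a+b, a+b+c`. -/
lemma bool_core : ∀ a b c ab ac bc abc : Bool,
    (!(a && b && c)
      && (!(a && b) || ab)
      && (!(a && ab) || b)
      && (!(a && c) || ac)
      && (!(a && ac) || c)
      && (!(a && bc) || abc)
      && (!(a && abc) || bc)
      && (!(b && ab) || a)
      && (!(b && c) || bc)
      && (!(b && ac) || abc)
      && (!(b && bc) || c)
      && (!(b && abc) || ac)
      && (!(ab && c) || abc)
      && (!(ab && ac) || bc)
      && (!(ab && bc) || ac)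
      && (!(ab && abc) || c)
      && (!(c && ac) || a)
      && (!(c && bc) || b)
      && (!(c && abc) || ab)
      && (!(ac && bc) || ab)
      && (!(ac && abc) || b)
      && (!(bc && abc) || a)) = true →
    ((!a).toNat + (!b).toNat + (!b && !ac && !bc).toNat + (!a && !c && !abc).toNat
      + (!c && !ac && !bc && !abc).toNat) % 2 = 1 := by
  decide

/-- Parity lemma: in a commutative ring of characteristic two, for a nonzero triple the number of
coordinates in which no linear form vanishes is odd. -/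
lemma parity (hA : (2 : A) = 0) {k : ℕ} (hk : 4 ≤ k) (d : A × A × A) (hd : d ≠ 0) :
    Odd {i : Fin 5 | ∀ j : Fin k, form i j d ≠ 0}.ncard := by
  classical
  obtain ⟨a, b, c⟩ := d
  have h0 : (∀ j : Fin k, form 0 j (a, b, c) ≠ 0) ↔ a ≠ 0 := by
    constructor
    · intro h; exact h ⟨0, by omega⟩
    · intro h j; exact h
  have h1 : (∀ j : Fin k, form 1 j (a, b, c) ≠ 0) ↔ b ≠ 0 := by
    constructor
    · intro h; exact h ⟨0, by omega⟩
    · intro h j; exact h
  have h2 : (∀ j : Fin k, form 2 j (a, b, c) ≠ 0) ↔ (b ≠ 0 ∧ a + c ≠ 0 ∧ b + c ≠ 0) := by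
    constructor
    · intro h
      exact ⟨by simpa [form] using h ⟨0, by omega⟩, by simpa [form] using h ⟨1, by omega⟩,
        by simpa [form] using h ⟨2, by omega⟩⟩
    · rintro ⟨h0, h1, h2⟩ j
      simp only [form]
      split_ifs <;> assumption
  have h3 : (∀ j : Fin k, form 3 j (a, b, c) ≠ 0) ↔ (a ≠ 0 ∧ c ≠ 0 ∧ a + b + c ≠ 0) := by
    constructor
    · intro h
      exact ⟨by simpa [form] using h ⟨0, by omega⟩, by simpa [form] using h ⟨1, by omega⟩,
        by simpa [form] using h ⟨2, by omega⟩⟩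
    · rintro ⟨h0, h1, h2⟩ j
      simp only [form]
      split_ifs <;> assumption
  have h4 : (∀ j : Fin k, form 4 j (a, b, c) ≠ 0) ↔
      (c ≠ 0 ∧ a + c ≠ 0 ∧ b + c ≠ 0 ∧ a + b + c ≠ 0) := by
    constructor
    · intro h
      exact ⟨by simpa [form] using h ⟨0, by omega⟩, by simpa [form] using h ⟨1, by omega⟩,
        by simpa [form] using h ⟨2, by omega⟩, by simpa [form] using h ⟨3, by omega⟩⟩
    · rintro ⟨h0, h1, h2, h3⟩ j
      simp only [form]
      split_ifs <;> assumption
  have hite : ∀ (p : Prop) [Decidable p], (if p then 1 else 0) = (decide p).toNat := by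
    intro p _; by_cases h : p <;> simp [h]
  have key := bool_core (decide (a = 0)) (decide (b = 0)) (decide (c = 0)) (decide (a + b = 0))
    (decide (a + c = 0)) (decide (b + c = 0)) (decide (a + b + c = 0)) (by
      have hne : ¬ (a = 0 ∧ b = 0 ∧ c = 0) := by
        rintro ⟨rfl, rfl, rfl⟩; exact hd rfl
      have hL : ∀ p q r : Prop, [Decidable p] → [Decidable q] → [Decidable r] →
          ((!(decide p && decide q) || decide r) = true ↔ (p → q → r)) := by
        intro p q r _ _ _
        by_cases p <;> by_cases q <;> by_cases r <;> simp_all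
      have hN : ((!(decide (a = 0) && decide (b = 0) && decide (c = 0))) = true ↔
          ¬ (a = 0 ∧ b = 0 ∧ c = 0)) := by
        by_cases a = 0 <;> by_cases b = 0 <;> by_cases c = 0 <;> simp_all
      simp only [Bool.and_eq_true (_ && _), Bool.and_eq_true (!_), hL, hN]
      refine ⟨⟨⟨⟨⟨⟨⟨⟨⟨⟨⟨⟨⟨⟨⟨⟨⟨⟨⟨⟨⟨hne, ?_⟩, ?_⟩, ?_⟩, ?_⟩, ?_⟩, ?_⟩, ?_⟩, ?_⟩, ?_⟩, ?_⟩, ?_⟩, ?_⟩,
        ?_⟩, ?_⟩, ?_⟩, ?_⟩, ?_⟩, ?_⟩, ?_⟩, ?_⟩, ?_⟩ <;> intro h1 h2 <;> first
        | linear_combination h1 + h2
        | linear_combination h1 + h2 - a * hA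
        | linear_combination h1 + h2 - b * hA
        | linear_combination h1 + h2 - c * hA
        | linear_combination h1 + h2 - (a + b) * hA
        | linear_combination h1 + h2 - (a + c) * hA
        | linear_combination h1 + h2 - (b + c) * hA)
  rw [Nat.odd_iff, ← key, Set.ncard_eq_toFinset_card', Set.toFinset_ofPred, Finset.card_filter,
    Fin.sum_univ_five]
  simp only [h0, h1, h2, h3, h4, hite, ne_eq, Bool.decide_and, decide_not, Bool.and_assoc]

/-- The `i`-th set of the tuple attached to `a`. -/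
def tup {n k : ℕ} (e : Fin k × A ↪ Fin n) (a : A × A × A) (i : Fin 5) :
    {s : Finset (Fin n) // s.card = k} :=
  ⟨Finset.univ.image (fun j : Fin k => e (j, form i j a)), by
    rw [Finset.card_image_of_injective, Finset.card_univ, Fintype.card_fin]
    intro j j' h
    exact congrArg Prod.fst (e.injective h)⟩

lemma tup_adj {n k : ℕ} (hk : 4 ≤ k) (e : Fin k × A ↪ Fin n) (a b : A × A × A) (i : Fin 5) :
    (kneser n k).Adj (tup e a i) (tup e b i) ↔ ∀ j : Fin k, form i j (a - b) ≠ 0 := by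
  have hdisj : Disjoint (tup e a i).1 (tup e b i).1 ↔
      ∀ j : Fin k, form i j (a - b) ≠ 0 := by
    rw [Finset.disjoint_left]
    constructor
    · intro h j hj
      rw [form_sub, sub_eq_zero] at hj
      refine h (a := e (j, form i j a)) ?_ ?_
      · exact Finset.mem_image.2 ⟨j, Finset.mem_univ _, rfl⟩
      · exact Finset.mem_image.2 ⟨j, Finset.mem_univ _, by rw [hj]⟩
    · intro h x hx hx'
      obtain ⟨j, -, rfl⟩ := Finset.mem_image.1 hx
      obtain ⟨j', -, hj'⟩ := Finset.mem_image.1 hx'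
      have := e.injective hj'
      simp only [Prod.mk.injEq] at this
      obtain ⟨rfl, h2⟩ := this
      apply h j'
      rw [form_sub, h2, sub_self]
  constructor
  · intro h; exact hdisj.1 h.2
  · intro h
    refine ⟨fun heq => ?_, hdisj.2 h⟩
    have h1 := hdisj.2 h
    rw [heq, disjoint_self] at h1
    have h2 := (tup e b i).2
    rw [h1] at h2
    simp at h2
    omega

lemma construction_clique (hA : (2 : A) = 0) [Fintype A] {n k : ℕ} (hk : 4 ≤ k)
    (e : Fin k × A ↪ Fin n) : (Fintype.card A) ^ 3 ≤ f 5 n k := by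
  classical
  have hadj : ∀ a b : A × A × A, a ≠ b →
      (xorPower (kneser n k) 5).Adj (tup e a) (tup e b) := by
    intro a b hab
    have := parity hA hk (a - b) (sub_ne_zero.2 hab)
    change Odd _
    simp only [tup_adj hk e]
    exact this
  have hinj : Function.Injective (fun (a : A × A × A) => tup e a) := by
    intro a b h
    by_contra hab
    have h1 := hadj a b hab
    have h2 : tup e a = tup e b := h
    rw [h2] at h1
    exact (xorPower (kneser n k) 5).loopless.irrefl _ h1
  have hcl : (xorPower (kneser n k) 5).IsClique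
      ((Finset.univ.map ⟨_, hinj⟩ : Finset (Fin 5 → {s : Finset (Fin n) // s.card = k})) :
        Set (Fin 5 → {s : Finset (Fin n) // s.card = k})) := by
    intro x hx y hy hxy
    simp only [Finset.coe_map, Function.Embedding.coeFn_mk, Finset.coe_univ, Set.image_univ,
      Set.mem_range] at hx hy
    obtain ⟨a, rfl⟩ := hx
    obtain ⟨b, rfl⟩ := hy
    exact hadj a b (fun h => hxy (by rw [h]))
  have := hcl.card_le_cliqueNum
  simp only [Finset.card_map, Finset.card_univ, Fintype.card_prod] at this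
  unfold f
  calc (Fintype.card A) ^ 3 = Fintype.card A * (Fintype.card A * Fintype.card A) := by ring
    _ ≤ _ := this

end construction

/-- Lower bound: the number of pairwise adjacent `5`-tuples is at least `(n / (2k)) ^ 3`. -/
theorem lower_bound {n k : ℕ} (hk : 4 ≤ k) (hn : k ≤ n) :
    ((n : ℝ) / (2 * k)) ^ 3 ≤ (f 5 n k : ℝ) := by
  have hk0 : 0 < k := by omega
  set m := Nat.log 2 (n / k) with hm
  have hnk : n / k ≠ 0 := by
    have := Nat.div_pos hn hk0; omega
  have h1 : 2 ^ m ≤ n / k := Nat.pow_log_le_self 2 hnk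
  have h2 : n / k < 2 ^ (m + 1) := Nat.lt_pow_succ_log_self (by norm_num) _
  have h3 : k * 2 ^ m ≤ n := by
    calc k * 2 ^ m ≤ k * (n / k) := Nat.mul_le_mul_left _ h1
      _ ≤ n := Nat.mul_div_le n k
  have h4 : n < 2 ^ (m + 1) * k := by
    rwa [Nat.div_lt_iff_lt_mul hk0] at h2
  have hcard : Fintype.card (Fin k × (Fin m → ZMod 2)) ≤ Fintype.card (Fin n) := by
    simp only [Fintype.card_prod, Fintype.card_fin, Fintype.card_pi, ZMod.card,
      Finset.prod_const, Finset.card_univ]
    exact h3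
  obtain ⟨e⟩ := Function.Embedding.nonempty_of_card_le hcard
  have hA : (2 : Fin m → ZMod 2) = 0 := by
    funext i
    change (2 : ZMod 2) = 0
    decide
  have h5 := construction_clique hA hk e
  have hcA : Fintype.card (Fin m → ZMod 2) = 2 ^ m := by
    simp [ZMod.card]
  rw [hcA] at h5
  have hkR : (0 : ℝ) < k := by exact_mod_cast hk0
  have h6 : (n : ℝ) / (2 * k) ≤ 2 ^ m := by
    rw [div_le_iff₀ (by positivity)]
    have : (n : ℝ) ≤ (2 : ℝ) ^ (m + 1) * k := by exact_mod_cast h4.le
    calc (n : ℝ) ≤ (2 : ℝ) ^ (m + 1) * k := this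
      _ = 2 ^ m * (2 * k) := by ring
  have h7 : ((2 : ℝ) ^ m) ^ 3 ≤ (f 5 n k : ℝ) := by exact_mod_cast h5
  refine le_trans ?_ h7
  gcongr

/-! ### The upper bound -/

section upper

/-- Constants of the upper bound. -/
def C (k : ℕ) : ℕ → ℕ
  | 0 => 1
  | (j + 1) => 1 + (2 * j + 2) * (k * C k j)

variable {ι : Type*} [DecidableEq ι] {n k : ℕ}

/-- Removing a coordinate in which all members share an element changes the parity. -/
lemma card_erase (T : Finset ι) {i : ι} (hi : i ∈ T) (X Y : ι → Finset (Fin n)) {v : Fin n}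
    (hX : v ∈ X i) (hY : v ∈ Y i) :
    (T.filter (fun i => ¬ Disjoint (X i) (Y i))).card =
      ((T.erase i).filter (fun i => ¬ Disjoint (X i) (Y i))).card + 1 := by
  have hmem : i ∈ T.filter (fun i => ¬ Disjoint (X i) (Y i)) := by
    rw [Finset.mem_filter]
    exact ⟨hi, fun h => Finset.disjoint_left.1 h hX hY⟩
  rw [Finset.filter_erase, Finset.card_erase_of_mem hmem]
  have := Finset.card_pos.2 ⟨i, hmem⟩
  omega

/-- From an even number of coordinates (odd parity) to one more coordinate (even parity). -/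
lemma even_step (j : ℕ)
    (h : ∀ (T : Finset ι) (S : Finset (ι → Finset (Fin n))), T.card = 2 * j →
        (∀ X ∈ S, ∀ i ∈ T, (X i).Nonempty ∧ (X i).card ≤ k) →
        (∀ X ∈ S, ∀ Y ∈ S, X ≠ Y → Odd (T.filter (fun i => ¬ Disjoint (X i) (Y i))).card) →
        S.card ≤ C k j * (n + 1) ^ j) :
    ∀ (T : Finset ι) (S : Finset (ι → Finset (Fin n))), T.card = 2 * j + 1 →
        (∀ X ∈ S, ∀ i ∈ T, (X i).Nonempty ∧ (X i).card ≤ k) →
        (∀ X ∈ S, ∀ Y ∈ S, X ≠ Y → Even (T.filter (fun i => ¬ Disjoint (X i) (Y i))).card) →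
        S.card ≤ C k j * (n + 1) ^ (j + 1) := by
  classical
  intro T S hT hk heven
  obtain ⟨i, hi⟩ := Finset.card_pos.1 (by omega : 0 < T.card)
  have hsub : S ⊆ (Finset.univ : Finset (Fin n)).biUnion (fun v => S.filter (fun X => v ∈ X i)) := by
    intro X hX
    obtain ⟨v, hv⟩ := (hk X hX i hi).1
    exact Finset.mem_biUnion.2 ⟨v, Finset.mem_univ _, Finset.mem_filter.2 ⟨hX, hv⟩⟩
  have hb : ∀ v ∈ (Finset.univ : Finset (Fin n)),
      (S.filter (fun X => v ∈ X i)).card ≤ C k j * (n + 1) ^ j := by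
    intro v _
    apply h (T.erase i) _ (by rw [Finset.card_erase_of_mem hi]; omega)
    · intro X hX i' hi'
      exact hk X (Finset.mem_filter.1 hX).1 i' (Finset.mem_of_mem_erase hi')
    · intro X hX Y hY hne
      have h1 := heven X (Finset.mem_filter.1 hX).1 Y (Finset.mem_filter.1 hY).1 hne
      rw [card_erase T hi X Y (Finset.mem_filter.1 hX).2 (Finset.mem_filter.1 hY).2] at h1
      rw [Nat.even_add_one, Nat.not_even_iff_odd] at h1
      exact h1
  calc S.card ≤ _ := Finset.card_le_card hsub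
    _ ≤ (Finset.univ : Finset (Fin n)).card * (C k j * (n + 1) ^ j) :=
        Finset.card_biUnion_le_card_mul _ _ _ hb
    _ ≤ (n + 1) * (C k j * (n + 1) ^ j) := by
        apply Nat.mul_le_mul_right; simp
    _ = C k j * (n + 1) ^ (j + 1) := by ring

/-- From an odd number of coordinates (even parity) to one more coordinate (odd parity). -/
lemma odd_step (j : ℕ)
    (h : ∀ (T : Finset ι) (S : Finset (ι → Finset (Fin n))), T.card = 2 * j + 1 →
        (∀ X ∈ S, ∀ i ∈ T, (X i).Nonempty ∧ (X i).card ≤ k) →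
        (∀ X ∈ S, ∀ Y ∈ S, X ≠ Y → Even (T.filter (fun i => ¬ Disjoint (X i) (Y i))).card) →
        S.card ≤ C k j * (n + 1) ^ (j + 1)) :
    ∀ (T : Finset ι) (S : Finset (ι → Finset (Fin n))), T.card = 2 * (j + 1) →
        (∀ X ∈ S, ∀ i ∈ T, (X i).Nonempty ∧ (X i).card ≤ k) →
        (∀ X ∈ S, ∀ Y ∈ S, X ≠ Y → Odd (T.filter (fun i => ¬ Disjoint (X i) (Y i))).card) →
        S.card ≤ C k (j + 1) * (n + 1) ^ (j + 1) := by
  classical
  intro T S hT hk hodd
  rcases S.eq_empty_or_nonempty with rfl | ⟨X₀, hX₀⟩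
  · simp
  have hsub : S ⊆ {X₀} ∪ T.biUnion (fun i => (X₀ i).biUnion
      (fun v => S.filter (fun X => v ∈ X i))) := by
    intro Y hY
    by_cases hne : Y = X₀
    · simp [hne]
    · have h1 := hodd X₀ hX₀ Y hY (fun h => hne h.symm)
      obtain ⟨i, hi⟩ := Finset.card_pos.1 h1.pos
      rw [Finset.mem_filter] at hi
      obtain ⟨v, hv, hv'⟩ := Finset.not_disjoint_iff.1 hi.2
      apply Finset.mem_union_right
      refine Finset.mem_biUnion.2 ⟨i, hi.1, Finset.mem_biUnion.2 ⟨v, hv, ?_⟩⟩
      exact Finset.mem_filter.2 ⟨hY, hv'⟩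
  have hb : ∀ i ∈ T, ∀ v ∈ X₀ i,
      (S.filter (fun X => v ∈ X i)).card ≤ C k j * (n + 1) ^ (j + 1) := by
    intro i hi v _
    apply h (T.erase i) _ (by rw [Finset.card_erase_of_mem hi]; omega)
    · intro X hX i' hi'
      exact hk X (Finset.mem_filter.1 hX).1 i' (Finset.mem_of_mem_erase hi')
    · intro X hX Y hY hne
      have h1 := hodd X (Finset.mem_filter.1 hX).1 Y (Finset.mem_filter.1 hY).1 hne
      rw [card_erase T hi X Y (Finset.mem_filter.1 hX).2 (Finset.mem_filter.1 hY).2] at h1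
      rw [Nat.odd_add_one, Nat.not_odd_iff_even] at h1
      exact h1
  have hb2 : ∀ i ∈ T, ((X₀ i).biUnion (fun v => S.filter (fun X => v ∈ X i))).card ≤
      k * (C k j * (n + 1) ^ (j + 1)) := by
    intro i hi
    refine (Finset.card_biUnion_le_card_mul _ _ _ (hb i hi)).trans ?_
    exact Nat.mul_le_mul_right _ (hk X₀ hX₀ i hi).2
  have hpow : 1 ≤ (n + 1) ^ (j + 1) := Nat.one_le_pow _ _ (by omega)
  calc S.card ≤ _ := Finset.card_le_card hsub
    _ ≤ 1 + T.card * (k * (C k j * (n + 1) ^ (j + 1))) := by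
        refine (Finset.card_union_le _ _).trans ?_
        gcongr
        · simp
        · exact Finset.card_biUnion_le_card_mul _ _ _ hb2
    _ ≤ (n + 1) ^ (j + 1) + (2 * j + 2) * (k * (C k j * (n + 1) ^ (j + 1))) := by
        rw [hT]
        gcongr
        omega
    _ = C k (j + 1) * (n + 1) ^ (j + 1) := by
        simp only [C]; ring

/-- Families of tuples of sets (with coordinates in a finite set `T`) all of whose pairs of distinct
members meet in a number of coordinates of the prescribed parity. -/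
lemma upper_aux (j : ℕ) :
      (∀ (T : Finset ι) (S : Finset (ι → Finset (Fin n))), T.card = 2 * j →
        (∀ X ∈ S, ∀ i ∈ T, (X i).Nonempty ∧ (X i).card ≤ k) →
        (∀ X ∈ S, ∀ Y ∈ S, X ≠ Y → Odd (T.filter (fun i => ¬ Disjoint (X i) (Y i))).card) →
        S.card ≤ C k j * (n + 1) ^ j) ∧
      (∀ (T : Finset ι) (S : Finset (ι → Finset (Fin n))), T.card = 2 * j + 1 →
        (∀ X ∈ S, ∀ i ∈ T, (X i).Nonempty ∧ (X i).card ≤ k) →
        (∀ X ∈ S, ∀ Y ∈ S, X ≠ Y → Even (T.filter (fun i => ¬ Disjoint (X i) (Y i))).card) →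
        S.card ≤ C k j * (n + 1) ^ (j + 1)) := by
  classical
  induction j with
  | zero =>
    have h0 : ∀ (T : Finset ι) (S : Finset (ι → Finset (Fin n))), T.card = 2 * 0 →
        (∀ X ∈ S, ∀ i ∈ T, (X i).Nonempty ∧ (X i).card ≤ k) →
        (∀ X ∈ S, ∀ Y ∈ S, X ≠ Y → Odd (T.filter (fun i => ¬ Disjoint (X i) (Y i))).card) →
        S.card ≤ C k 0 * (n + 1) ^ 0 := by
      intro T S hT _ hodd
      have hT' : T = ∅ := Finset.card_eq_zero.1 (by omega)
      subst hT'
      simp only [C, pow_zero, mul_one]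
      rw [Finset.card_le_one]
      intro X hX Y hY
      by_contra hne
      have := hodd X hX Y hY hne
      simp at this
    exact ⟨h0, even_step 0 h0⟩
  | succ j ih =>
    have h0 := odd_step j ih.2
    exact ⟨h0, even_step (j + 1) h0⟩

end upper

/-- Upper bound (known): `f_ℓ(n,k) ≤ C (n+1) ^ ⌊(ℓ+1)/2⌋`. -/
theorem upper_bound {ℓ n k : ℕ} (hk : 1 ≤ k) :
    f ℓ n k ≤ C k (ℓ / 2) * (n + 1) ^ ((ℓ + 1) / 2) := by
  classical
  obtain ⟨S, hS⟩ := (xorPower (kneser n k) ℓ).exists_isNClique_cliqueNum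
  unfold f
  rw [← hS.card_eq]
  -- forget that the sets have size exactly `k`
  let g : (Fin ℓ → {s : Finset (Fin n) // s.card = k}) → (Fin ℓ → Finset (Fin n)) :=
    fun X i => (X i).1
  have hg : Function.Injective g := by
    intro X Y h
    funext i
    exact Subtype.ext (congrFun h i)
  have hcard : S.card = (S.image g).card := (Finset.card_image_of_injective S hg).symm
  rw [hcard]
  have hprop : ∀ X ∈ S.image g, ∀ i ∈ (Finset.univ : Finset (Fin ℓ)),
      (X i).Nonempty ∧ (X i).card ≤ k := by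
    intro X hX i _
    obtain ⟨X', _, rfl⟩ := Finset.mem_image.1 hX
    have := (X' i).2
    refine ⟨Finset.card_pos.1 ?_, this.le⟩
    change 0 < (X' i).1.card
    omega
  have hpar : ∀ X ∈ S.image g, ∀ Y ∈ S.image g, X ≠ Y →
      Odd ((Finset.univ : Finset (Fin ℓ)).filter (fun i => Disjoint (X i) (Y i))).card := by
    intro X hX Y hY hne
    obtain ⟨X', hX', rfl⟩ := Finset.mem_image.1 hX
    obtain ⟨Y', hY', rfl⟩ := Finset.mem_image.1 hY
    have h1 : (xorPower (kneser n k) ℓ).Adj X' Y' := hS.isClique hX' hY' (fun h => hne (by rw [h]))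
    change Odd _ at h1
    have h2 : {i : Fin ℓ | (kneser n k).Adj (X' i) (Y' i)} =
        (((Finset.univ : Finset (Fin ℓ)).filter (fun i => Disjoint (g X' i) (g Y' i)) :
          Finset (Fin ℓ)) : Set (Fin ℓ)) := by
      ext i
      simp only [Finset.coe_filter, Finset.mem_univ, true_and, Set.mem_ofPred_eq]
      constructor
      · intro h; exact h.2
      · intro h
        refine ⟨fun heq => ?_, h⟩
        have h3 : Disjoint (X' i).1 (Y' i).1 := h
        rw [heq, disjoint_self] at h3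
        have h4 := (Y' i).2
        rw [h3] at h4
        simp at h4
        omega
    rw [h2, Set.ncard_coe_finset] at h1
    exact h1
  have hcount : ∀ X Y : Fin ℓ → Finset (Fin n),
      ((Finset.univ : Finset (Fin ℓ)).filter (fun i => Disjoint (X i) (Y i))).card +
      ((Finset.univ : Finset (Fin ℓ)).filter (fun i => ¬ Disjoint (X i) (Y i))).card = ℓ := by
    intro X Y
    rw [Finset.card_filter_add_card_filter_not]
    simp
  rcases Nat.even_or_odd' ℓ with ⟨j, hj | hj⟩
  · have h1 := (upper_aux (n := n) (k := k) (ι := Fin ℓ) j).1 Finset.univ (S.image g)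
      (by simp [hj]) hprop (by
        intro X hX Y hY hne
        have h2 := hpar X hX Y hY hne
        have h3 := hcount X Y
        rw [Nat.odd_iff] at h2 ⊢
        omega)
    have e1 : ℓ / 2 = j := by omega
    have e2 : (ℓ + 1) / 2 = j := by omega
    rw [e1, e2]
    exact h1
  · have h1 := (upper_aux (n := n) (k := k) (ι := Fin ℓ) j).2 Finset.univ (S.image g)
      (by simp [hj]) hprop (by
        intro X hX Y hY hne
        have h2 := hpar X hX Y hY hne
        have h3 := hcount X Y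
        rw [Nat.odd_iff] at h2
        rw [Nat.even_iff]
        omega)
    have e1 : ℓ / 2 = j := by omega
    have e2 : (ℓ + 1) / 2 = j + 1 := by omega
    rw [e1, e2]
    exact h1

/-- For `ℓ = 5` and every fixed `k ≥ 4` the clique number is of order `n ^ 3`. -/
theorem theta_five {k : ℕ} (hk : 4 ≤ k) :
    (fun n : ℕ => (f 5 n k : ℝ)) =Θ[atTop] (fun n : ℕ => (n : ℝ) ^ 3) := by
  have hkR : (0 : ℝ) < k := by
    have : 0 < k := by omega
    exact_mod_cast this
  constructor
  · refine IsBigO.of_bound (C k 2 * 8) ?_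
    filter_upwards [eventually_ge_atTop 1] with n hn
    have h1 : f 5 n k ≤ C k 2 * (n + 1) ^ 3 := upper_bound (by omega)
    have h2 : (n + 1) ^ 3 ≤ 8 * n ^ 3 := by
      calc (n + 1) ^ 3 ≤ (2 * n) ^ 3 := Nat.pow_le_pow_left (by omega) 3
        _ = 8 * n ^ 3 := by ring
    have h3 : f 5 n k ≤ C k 2 * 8 * n ^ 3 := by
      calc f 5 n k ≤ C k 2 * (n + 1) ^ 3 := h1
        _ ≤ C k 2 * (8 * n ^ 3) := Nat.mul_le_mul_left _ h2
        _ = C k 2 * 8 * n ^ 3 := by ring
    rw [Real.norm_of_nonneg (by positivity), Real.norm_of_nonneg (by positivity)]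
    exact_mod_cast h3
  · refine IsBigO.of_bound ((2 * (k : ℝ)) ^ 3) ?_
    filter_upwards [eventually_ge_atTop k] with n hn
    have h1 := lower_bound hk hn
    rw [Real.norm_of_nonneg (by positivity), Real.norm_of_nonneg (by positivity)]
    rw [div_pow, div_le_iff₀ (by positivity)] at h1
    linarith

/-- **Main theorem.** For every fixed `k ≥ 4`, `f_5(n,k) = Θ(n ^ 3)`; consequently it is false that
for every `ℓ ≥ 1` and all sufficiently large fixed `k` one has
`f_ℓ(n,k) = Θ(n ^ ⌊log₂ (ℓ + 1)⌋)`. -/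
theorem result :
    (∀ k : ℕ, 4 ≤ k →
      (fun n : ℕ => (f 5 n k : ℝ)) =Θ[atTop] (fun n : ℕ => (n : ℝ) ^ 3)) ∧
    ¬ (∀ ℓ : ℕ, 1 ≤ ℓ → ∃ k₀ : ℕ, ∀ k : ℕ, k₀ ≤ k →
      (fun n : ℕ => (f ℓ n k : ℝ)) =Θ[atTop] (fun n : ℕ => (n : ℝ) ^ Nat.log 2 (ℓ + 1))) := by
  refine ⟨fun k hk => theta_five hk, fun h => ?_⟩
  obtain ⟨k₀, hk₀⟩ := h 5 (by norm_num)
  have h1 := hk₀ (max k₀ 4) (le_max_left _ _)
  have h2 := theta_five (le_max_right k₀ 4)
  have hlog : Nat.log 2 (5 + 1) = 2 := by
    rw [Nat.log_eq_iff] <;> norm_num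
  rw [hlog] at h1
  have h3 : (fun n : ℕ => (n : ℝ) ^ 3) =O[atTop] (fun n : ℕ => (n : ℝ) ^ 2) :=
    (h2.symm.trans h1).1
  have h4 : (fun n : ℕ => (n : ℝ) ^ 2) =o[atTop] (fun n : ℕ => (n : ℝ) ^ 3) :=
    (isLittleO_pow_pow_atTop_of_lt (by norm_num : 2 < 3)).comp_tendsto tendsto_natCast_atTop_atTop
  have h5 : (fun n : ℕ => (n : ℝ) ^ 3) =o[atTop] (fun n : ℕ => (n : ℝ) ^ 3) :=
    h3.trans_isLittleO h4
  refine isLittleO_irrefl ?_ h5
  apply Filter.Eventually.frequently
  filter_upwards [eventually_ge_atTop 1] with n hn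
  have : (0 : ℝ) < n := by exact_mod_cast hn
  positivity

end Pool.Agent.Results.MP_e3e024_co.FifthXorPower

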